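import Pool.Agent.Lib.MP_e8750f_nt.CMain

/-! A slender multiple mixed value of depth six with mixed signs that is unramified both in the
Hodge model and in the coaction model of motivic periods. -/

namespace Pool.Agent.Results.MP_e8750f_nt.DisproofTwoModels

open Pool.Agent.Lib.MP_e8750f_nt

/-- Sanity check of the definitions: `log 2`, the word `[-1]`, is unramified in neither model. -/
theorem sanity_log_two :
    ¬ Unramified (Finsupp.single [-1] 1) ∧ ¬ CoactionUnramified (Finsupp.single [-1] 1) :=
  ⟨log_two_ramified, log_two_cram⟩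

theorem result :
    ¬ ∀ (d : ℕ) (s : Fin d → ℕ) (ε : Fin d → ℤˣ), 6 ≤ d → (∀ j, 1 ≤ s j) →
      (∀ j : Fin d, j.val + 1 = d → 2 ≤ s j) → Finset.univ.sup s = 3 →
      Unramified (mmv s ε) → CoactionUnramified (mmv s ε) →
      (∀ j, ε j = 1) ∨ (∀ j, ε j = -1) ∨ ((∀ j : Fin d, ε j = (-1) ^ (j.val + 1)) ∧
        ∃ k l : ℕ, List.ofFn s = List.replicate (2 * k) 1 ++ [3] ++ List.replicate (2 * l) 1 ++ [2] ∨
          List.ofFn s = List.replicate (2 * k) 1 ++ [3]) := by
  intro h
  rcases h 6 _ _ le_rfl (by decide) (by decide) (by decide) unramified_X cunram_X with h | h | h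
  · exact absurd (h 4) (by decide)
  · exact absurd (h 0) (by decide)
  · exact absurd (h.1 0) (by decide)

end Pool.Agent.Results.MP_e8750f_nt.DisproofTwoModels
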