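import Pool.Agent.Lib.MP_e8750f_nt.RSeries

/-! A three-parameter family of slender mixed-sign values that are rational combinations of real
multiple zeta values. -/

namespace Pool.Agent.Results.MP_e8750f_nt.RealFamily

open Pool.Agent.Lib.MP_e8750f_nt

theorem result (p q r d : ℕ) (s : Fin d → ℕ) (ε : Fin d → ℤˣ)
    (hs : List.ofFn s =
      List.replicate p 2 ++ [3] ++ List.replicate q 2 ++ [1] ++ List.replicate (r + 1) 2)
    (hε : List.ofFn ε = List.replicate (p + 1 + q) 1 ++ [-1] ++ List.replicate (r + 1) 1) :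
    ∃ x ∈ zetaSpan (∑ j, s j), HasSum (mmvTerm s ε) x :=
  family p q r d s ε hs hε

end Pool.Agent.Results.MP_e8750f_nt.RealFamily
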